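import Pool.Agent.Helper60_SEP.Stmts

/-!
Squad SEP, module LEF: sparse hypergraphs are injective and leafy.
-/

set_option autoImplicit false

namespace Pool.Agent.SEP60.H31

open Pool.Agent.SEP60

theorem lef_inj {n L : ℕ} {Y E : Type} [Finite Y] (inc : E → Fin n → Y) (hn : 2 ≤ n)
    (hL : 1 ≤ L) (h : Sparse L inc) (e : E) : Function.Injective (inc e) := by
  classical
  have h1 := h {e} ⟨e, rfl⟩ (by rw [Set.ncard_singleton]; exact hL)
  rw [Set.ncard_singleton, mul_one, Nat.sub_add_cancel (by omega)] at h1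
  have h2 : {y | ∃ e' ∈ ({e} : Set E), ∃ i, inc e' i = y} =
      ((Finset.univ.image (inc e) : Finset Y) : Set Y) := by
    ext y
    simp
  rw [h2, Set.ncard_coe_finset] at h1
  have h3 : (Finset.univ.image (inc e)).card = (Finset.univ : Finset (Fin n)).card :=
    le_antisymm Finset.card_image_le (by rw [Finset.card_univ, Fintype.card_fin]; exact h1)
  have h4 := Finset.card_image_iff.1 h3
  intro i j hij
  exact h4 (Finset.mem_coe.2 (Finset.mem_univ i)) (Finset.mem_coe.2 (Finset.mem_univ j)) hij

theorem lef : LefStmt := by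
  intro n L Y E _ _ inc hn hL h
  refine ⟨lef_inj inc hn hL h, fun x D hD hDL => ?_⟩
  classical
  by_contra hcon
  push Not at hcon
  have := Fintype.ofFinite Y
  have := Fintype.ofFinite E
  let bad : E × Fin n → Prop := fun p => inc p.1 p.2 ∈ ({x} : Set Y) ∨
    ∃ e' ∈ D, e' ≠ p.1 ∧ ∃ l, inc e' l = inc p.1 p.2
  let D' : Finset E := D.toFinset
  have hD'c : D'.card = D.ncard := by
    rw [Set.ncard_eq_toFinset_card']
  have hmem : ∀ e, e ∈ D' ↔ e ∈ D := fun e => Set.mem_toFinset
  let I : Finset (E × Fin n) := D' ×ˢ Finset.univ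
  let Ib := I.filter bad
  let Ig := I.filter (fun p => ¬ bad p)
  let f : E × Fin n → Y := fun p => inc p.1 p.2
  have hI : Ib.card + Ig.card = n * D.ncard := by
    rw [Finset.card_filter_add_card_filter_not, Finset.card_product, Finset.card_univ,
      Fintype.card_fin, hD'c, mul_comm]
  -- two bad incidences in every hyperedge
  have h2 : 2 * D.ncard ≤ Ib.card := by
    have h3 : Ib.card = ∑ e ∈ D', (Finset.univ.filter (fun i => bad (e, i))).card := by
      rw [Finset.card_filter, Finset.sum_product]
      refine Finset.sum_congr rfl fun e _ => ?_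
      rw [Finset.card_filter]
    rw [h3, ← hD'c, mul_comm]
    have h4 : D'.card * 2 = ∑ _e ∈ D', 2 := by rw [Finset.sum_const, smul_eq_mul]
    rw [h4]
    refine Finset.sum_le_sum fun e he => ?_
    obtain ⟨i, j, h5, h6, h7⟩ := hcon e ((hmem e).1 he)
    have h8 : ({i, j} : Finset (Fin n)) ⊆ Finset.univ.filter (fun i => bad (e, i)) := by
      intro k hk
      rw [Finset.mem_insert, Finset.mem_singleton] at hk
      rw [Finset.mem_filter]
      rcases hk with rfl | rfl
      · exact ⟨Finset.mem_univ _, h5⟩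
      · exact ⟨Finset.mem_univ _, h6⟩
    have h9 := Finset.card_le_card h8
    rwa [Finset.card_pair h7] at h9
  -- fibres over the bad points
  have h3 : 2 * (Ib.image f).card ≤ Ib.card + 1 := by
    have h4 : Ib.card = ∑ y ∈ Ib.image f, (Ib.filter (fun p => f p = y)).card :=
      Finset.card_eq_sum_card_fiberwise fun p hp => Finset.mem_image_of_mem f hp
    have h5 : ∀ y ∈ Ib.image f, 2 ≤ (Ib.filter (fun p => f p = y)).card + if y = x then 1 else 0 := by
      intro y hy
      obtain ⟨p, hp, hpy⟩ := Finset.mem_image.1 hy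
      have hpf : p ∈ Ib.filter (fun p => f p = y) := Finset.mem_filter.2 ⟨hp, hpy⟩
      by_cases hyx : y = x
      · rw [if_pos hyx]
        have := Finset.card_pos.2 ⟨p, hpf⟩
        omega
      · rw [if_neg hyx]
        have hp1 := Finset.mem_filter.1 hp
        have hp2 := Finset.mem_product.1 hp1.1
        rcases hp1.2 with h6 | ⟨e', he', hne, l, hl⟩
        · exact absurd (hpy.symm.trans h6) hyx
        · have hq : (e', l) ∈ Ib.filter (fun p => f p = y) := by
            refine Finset.mem_filter.2 ⟨Finset.mem_filter.2 ⟨Finset.mem_product.2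
              ⟨(hmem e').2 he', Finset.mem_univ _⟩, Or.inr ⟨p.1, (hmem _).1 hp2.1,
                fun h => hne h.symm, p.2, hl.symm⟩⟩, ?_⟩
            exact hl.trans hpy
          have h7 : ({p, (e', l)} : Finset (E × Fin n)) ⊆ Ib.filter (fun p => f p = y) := by
            intro k hk
            rw [Finset.mem_insert, Finset.mem_singleton] at hk
            rcases hk with rfl | rfl
            · exact hpf
            · exact hq
          have h8 := Finset.card_le_card h7
          rw [Finset.card_pair (fun h => hne (congrArg Prod.fst h).symm)] at h8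
          omega
    have h6 := Finset.sum_le_sum h5
    rw [Finset.sum_const, smul_eq_mul, Finset.sum_add_distrib, ← h4, Finset.sum_ite_eq'] at h6
    have h7 : (if x ∈ Ib.image f then 1 else 0) ≤ 1 := by split_ifs <;> omega
    omega
  -- the points
  have h4 : {y | ∃ e ∈ D, ∃ i, inc e i = y}.ncard ≤ Ig.card + (Ib.image f).card := by
    have h5 : {y | ∃ e ∈ D, ∃ i, inc e i = y} = ((Ig.image f ∪ Ib.image f : Finset Y) : Set Y) := by
      ext y
      rw [Finset.mem_coe, Finset.mem_union, Finset.mem_image, Finset.mem_image]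
      constructor
      · rintro ⟨e, he, i, rfl⟩
        have h6 : (e, i) ∈ I := Finset.mem_product.2 ⟨(hmem e).2 he, Finset.mem_univ _⟩
        by_cases h7 : bad (e, i)
        · exact Or.inr ⟨(e, i), Finset.mem_filter.2 ⟨h6, h7⟩, rfl⟩
        · exact Or.inl ⟨(e, i), Finset.mem_filter.2 ⟨h6, h7⟩, rfl⟩
      · rintro (⟨p, hp, rfl⟩ | ⟨p, hp, rfl⟩)
        · exact ⟨p.1, (hmem _).1 (Finset.mem_product.1 (Finset.mem_filter.1 hp).1).1, p.2, rfl⟩
        · exact ⟨p.1, (hmem _).1 (Finset.mem_product.1 (Finset.mem_filter.1 hp).1).1, p.2, rfl⟩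
    rw [h5, Set.ncard_coe_finset]
    exact (Finset.card_union_le _ _).trans (Nat.add_le_add_right Finset.card_image_le _)
  have h5 := h D hD hDL
  have h6 : (n - 1) * D.ncard + D.ncard = n * D.ncard := by
    obtain ⟨m, rfl⟩ : ∃ m, n = m + 1 := ⟨n - 1, by omega⟩
    rw [Nat.add_sub_cancel]
    ring
  omega

end Pool.Agent.SEP60.H31
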