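import Pool.Agent.Helper60_SEP.Stmts
import Pool.Agent.Helper21_RS2.Bmx
import Pool.Agent.Helper60_RS2.Ktt

/-!
Squad SEP, module MXB: a bipartite mixed gadget.
-/

set_option autoImplicit false

open SimpleGraph

namespace Pool.Agent.SEP60.H31

open Pool.Agent.RS80 Pool.Agent.RS81

theorem mxb : MxbStmt := by
  intro V _ B hB hcol
  obtain ⟨t, ht⟩ := H60.ktt V B hcol
  obtain ⟨Kt, hKt⟩ : ∃ Kt : SimpleGraph (Fin t ⊕ Fin t), Kt = completeBipartiteGraph (Fin t) (Fin t) :=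
    ⟨_, rfl⟩
  have hne : ({G : SimpleGraph (Fin t ⊕ Fin t) | G ≤ Kt ∧ InC B G}).Nonempty := by
    obtain ⟨v⟩ : Nonempty V := hB.2.1.nonempty
    obtain ⟨u, hu⟩ := hB.exists_adj v
    have hbot : B.Free (⊥ : SimpleGraph (Fin t ⊕ Fin t)) := by
      rintro ⟨f⟩
      exact f.toHom.map_adj hu
    exact ⟨⊥, bot_le, ⊥, ⊥, by simp, hbot, hbot⟩
  obtain ⟨G0, hG0⟩ :=
    (Set.toFinite {G : SimpleGraph (Fin t ⊕ Fin t) | G ≤ Kt ∧ InC B G}).exists_maximal hne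
  have hnot : ¬ InC B Kt := by
    intro h
    have h1 := ht _ Kt h
    rw [hKt] at h1
    exact h1 ⟨Copy.id _⟩
  -- an edge of `Kt` outside `G0`
  obtain ⟨r, v, hKrv, hadj⟩ : ∃ r v, Kt.Adj r v ∧ ¬ G0.Adj r v := by
    by_contra hcon
    push Not at hcon
    apply hnot
    have h1 : G0 = Kt := le_antisymm hG0.prop.1 fun a b hab => hcon a b hab
    rw [← h1]
    exact hG0.prop.2
  have hrv : r ≠ v := hKrv.ne
  have hboth1 : ∀ R S, Good B G0 R S → ∃ x, R.Adj r x := by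
    intro R S h
    by_contra hcon
    rw [not_exists] at hcon
    have h1 : InC B (G0 ⊔ edge r v) := ⟨_, _, RS81.H21.good_add hB h hcon⟩
    have h2 : G0 ⊔ edge r v ≤ Kt := sup_le hG0.prop.1 ((edge_le_iff Kt).2 (Or.inr hKrv))
    have h3 := hG0.le_of_ge ⟨h2, h1⟩ le_sup_left
    apply hadj
    apply h3
    rw [sup_adj, edge_adj]
    exact Or.inr ⟨Or.inl ⟨rfl, rfl⟩, hrv⟩
  refine ⟨Fin t ⊕ Fin t, inferInstance, G0, Sum.isLeft, r, ?_, hG0.prop.2, fun R S h =>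
    ⟨hboth1 R S h, hboth1 S R (RS81.H21.Good.swap h)⟩⟩
  intro x y hxy
  have h1 : Kt.Adj x y := hG0.prop.1 hxy
  rw [hKt] at h1
  rcases x with x | x <;> rcases y with y | y
  · simp at h1
  · simp
  · simp
  · simp at h1

end Pool.Agent.SEP60.H31
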